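import Pool.Agent.Lib.MP_8860fd_co.JFinal

namespace Pool.Agent.Results.MP_8860fd_co.LargePairs

open Pool.Agent.Lib.MP_8860fd_co

/-- Almost all `(K, L)`-uniform matroids on `[n]` are `(k, l)`-uniform whenever `k + l ≥ 4`.
With `(K, L) = (k + 1, l)` this is Q1 for every pair with `k + l ≥ 4`. -/
theorem result : ∀ K L k l : ℕ, 0 < K → 0 < L → (K, L) ≠ (1, 1) → 0 < k → 0 < l → 4 ≤ k + l →
    Filter.Tendsto
      (fun n : ℕ =>
        (({M : Matroid (Fin n) | M.E = Set.univ ∧ KLUniform K L M ∧ KLUniform k l M}.ncard : ℝ) /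
          ({M : Matroid (Fin n) | M.E = Set.univ ∧ KLUniform K L M}.ncard : ℝ)))
      Filter.atTop (nhds 1) := by
  intro K L k l hK hL hKL hk hl hkl
  simpa only [J.UC, Set.mem_ofPred_eq, and_assoc] using J.main hK hL hKL hk hl hkl

end Pool.Agent.Results.MP_8860fd_co.LargePairs
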